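import Pool.Agent.Zk91.SQ.Defs

/-!
# Densities of Gaussian integers by divisibility
-/

set_option autoImplicit false

open Filter Topology MeasureTheory Pointwise

namespace Pool.Agent.Zk50.SQ

open Pool.Agent.Zk91.SQ

/-- the closed unit disc -/
def ud : Set (Fin 2 → ℝ) := {v | v 0 ^ 2 + v 1 ^ 2 ≤ 1}

theorem ud_eq : ud = Complex.measurableEquivPi.symm ⁻¹' (Metric.closedBall 0 1) := by
  ext v
  rw [Set.mem_preimage, mem_closedBall_zero_iff, Complex.measurableEquivPi_symm_apply]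
  unfold ud
  rw [Set.mem_ofPred_eq, Complex.norm_def, Complex.normSq_apply]
  rw [Real.sqrt_le_one]
  simp
  constructor <;> intro h <;> nlinarith

theorem vol_ud : volume.real ud = Real.pi := by
  rw [ud_eq, measureReal_def]
  rw [(Complex.volume_preserving_equiv_pi.symm).measure_preimage_equiv, Complex.volume_closedBall]
  simp

theorem ud_closed : IsClosed ud :=
  isClosed_le (by fun_prop) continuous_const

theorem ud_convex : Convex ℝ ud := by
  intro x hx y hy a b ha hb hab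
  unfold ud at *
  rw [Set.mem_ofPred_eq] at *
  simp only [Pi.add_apply, Pi.smul_apply, smul_eq_mul]
  have hb' : b = 1 - a := by linarith
  subst hb'
  nlinarith [mul_nonneg ha hb, sq_nonneg (x 0 - y 0), sq_nonneg (x 1 - y 1),
    mul_nonneg (mul_nonneg ha hb) (add_nonneg (sq_nonneg (x 0 - y 0)) (sq_nonneg (x 1 - y 1)))]

theorem ud_bdd : Bornology.IsBounded ud := by
  refine (Metric.isBounded_closedBall (x := (0 : Fin 2 → ℝ)) (r := 1)).subset fun v hv => ?_
  rw [mem_closedBall_zero_iff, pi_norm_le_iff_of_nonneg zero_le_one]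
  unfold ud at hv
  rw [Set.mem_ofPred_eq] at hv
  intro i
  rw [Real.norm_eq_abs, abs_le]
  fin_cases i
  · constructor <;> simp only [Fin.zero_eta] <;> nlinarith [sq_nonneg (v 1), sq_nonneg (v 0 - 1), sq_nonneg (v 0 + 1)]
  · constructor <;> simp only [Fin.mk_one] <;> nlinarith [sq_nonneg (v 0), sq_nonneg (v 1 - 1), sq_nonneg (v 1 + 1)]

theorem ud_tendsto : Tendsto (fun x : ℝ => (Nat.card ↑(ud ∩ x⁻¹ •
    (Submodule.span ℤ (Set.range (Pi.basisFun ℝ (Fin 2))) : Set (Fin 2 → ℝ))) : ℝ) / x ^ 2) atTop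
      (𝓝 Real.pi) := by
  have h := tendsto_card_div_pow_atTop_volume' ud ud_bdd ud_closed.measurableSet
    (ud_convex.addHaar_frontier volume) (fun x y hx hxy => ?_)
  · rw [vol_ud] at h
    simpa using h
  · intro v hv
    rw [Set.mem_smul_set_iff_inv_smul_mem₀ (by linarith)] at hv
    rw [Set.mem_smul_set_iff_inv_smul_mem₀ (by linarith)]
    unfold ud at *
    simp only [Set.mem_ofPred_eq, Pi.smul_apply, smul_eq_mul, mul_pow, ← mul_add] at *
    have hy : 0 < y := by linarith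
    refine le_trans ?_ hv
    gcongr

theorem mem_lat (v : Fin 2 → ℝ) : v ∈ (Submodule.span ℤ (Set.range (Pi.basisFun ℝ (Fin 2))) :
    Set (Fin 2 → ℝ)) ↔ ∃ ξ : G, v = ![(ξ.re : ℝ), (ξ.im : ℝ)] := by
  rw [SetLike.mem_coe, Module.Basis.mem_span_iff_repr_mem]
  constructor
  · intro h
    obtain ⟨a, ha⟩ := h 0
    obtain ⟨b, hb⟩ := h 1
    refine ⟨⟨a, b⟩, ?_⟩
    ext i
    fin_cases i
    · simpa using ha.symm
    · simpa using hb.symm
  · rintro ⟨ξ, rfl⟩ i
    fin_cases i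
    · exact ⟨ξ.re, by simp⟩
    · exact ⟨ξ.im, by simp⟩

/-- the number of the lattice points in the disc -/
theorem card_disc (X : ℕ) (hX : 0 < X) : Nat.card ↑(ud ∩ (Real.sqrt X)⁻¹ •
    (Submodule.span ℤ (Set.range (Pi.basisFun ℝ (Fin 2))) : Set (Fin 2 → ℝ))) =
      (disc X).card + 1 := by
  have hX' : (0 : ℝ) < X := by exact_mod_cast hX
  have hs : 0 < Real.sqrt X := Real.sqrt_pos.2 hX'
  have hss : Real.sqrt X ^ 2 = X := Real.sq_sqrt hX'.le
  have h0 : (0 : G) ∉ disc X := by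
    rw [mem_disc]
    simp
  have hset : ud ∩ (Real.sqrt X)⁻¹ •
    (Submodule.span ℤ (Set.range (Pi.basisFun ℝ (Fin 2))) : Set (Fin 2 → ℝ)) =
      (fun ξ : G => (Real.sqrt X)⁻¹ • ![(ξ.re : ℝ), (ξ.im : ℝ)]) ''
        ((insert 0 (disc X) : Finset G) : Set G) := by
    ext v
    constructor
    · rintro ⟨hv, hv2⟩
      obtain ⟨w, hw, rfl⟩ := hv2
      rw [mem_lat] at hw
      obtain ⟨ξ, rfl⟩ := hw
      refine ⟨ξ, ?_, rfl⟩
      unfold ud at hv
      simp [-GaussianInt.intCast_re, -GaussianInt.intCast_im] at hv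
      rw [Finset.coe_insert, Set.mem_insert_iff, Finset.mem_coe, mem_disc]
      by_cases h : ξ = 0
      · exact Or.inl h
      · refine Or.inr ⟨h, ?_⟩
        rw [norm_eq]
        have h1 : ((ξ.re : ℝ) * ξ.re + ξ.im * ξ.im) ≤ X := by
          rw [mul_pow, mul_pow, ← mul_add, inv_pow, hss, inv_mul_le_iff₀ hX'] at hv
          linarith
        exact_mod_cast h1
    · rintro ⟨ξ, hξ, rfl⟩
      refine ⟨?_, ⟨_, (mem_lat _).2 ⟨ξ, rfl⟩, rfl⟩⟩
      rw [Finset.coe_insert, Set.mem_insert_iff, Finset.mem_coe, mem_disc] at hξ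
      have h1 : ((ξ.re : ℝ) * ξ.re + ξ.im * ξ.im) ≤ X := by
        rcases hξ with rfl | ⟨-, h⟩
        · simp
        · rw [norm_eq] at h
          exact_mod_cast h
      unfold ud
      simp [-GaussianInt.intCast_re, -GaussianInt.intCast_im]
      rw [mul_pow, mul_pow, ← mul_add, inv_pow, hss, inv_mul_le_iff₀ hX']
      linarith
  rw [hset, Nat.card_image_of_injective, Nat.card_coe_set_eq, Set.ncard_coe_finset,
    Finset.card_insert_of_notMem h0]
  intro ξ η h
  have h2 : ![(ξ.re : ℝ), (ξ.im : ℝ)] = ![(η.re : ℝ), (η.im : ℝ)] :=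
    smul_right_injective _ (inv_ne_zero hs.ne') h
  have h3 := congrFun h2 0
  have h4 := congrFun h2 1
  simp [-GaussianInt.intCast_re, -GaussianInt.intCast_im] at h3 h4
  exact Zsqrtd.ext (by exact_mod_cast h3) (by exact_mod_cast h4)

/-- The number of the lattice points in a disc is asymptotic to the area. -/
theorem card_tendsto : Tendsto (fun X : ℕ => (1 / (X : ℝ)) * (disc X).card) atTop
    (𝓝 Real.pi) := by
  have h1 : Tendsto (fun X : ℕ => Real.sqrt (X : ℝ)) atTop atTop :=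
    Real.tendsto_sqrt_atTop.comp tendsto_natCast_atTop_atTop
  have h2 := ud_tendsto.comp h1
  have h3 : Tendsto (fun X : ℕ => (1 / (X : ℝ))) atTop (𝓝 0) := tendsto_one_div_atTop_nhds_zero_nat
  have h4 := h2.sub h3
  rw [sub_zero] at h4
  refine h4.congr' ?_
  filter_upwards [eventually_gt_atTop 0] with X hX
  have hX' : (0 : ℝ) < X := by exact_mod_cast hX
  rw [Function.comp_apply, card_disc X hX, Real.sq_sqrt hX'.le]
  push_cast
  field_simp
  ring

theorem norm_star (ξ : G) : (star ξ).norm = ξ.norm := Zsqrtd.norm_conj ξ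

theorem self_mul_star (ξ : G) : ξ * star ξ = ((ξ.norm : ℤ) : G) :=
  (Zsqrtd.norm_eq_mul_conj ξ).symm

theorem star_dvd_norm (ξ : G) : ξ ∣ ((ξ.norm : ℤ) : G) := ⟨star ξ, (self_mul_star ξ).symm⟩

/-- elements with coprime norms are coprime -/
theorem coprime_of_norm {α β : G} (h : IsCoprime α.norm β.norm) : IsCoprime α β := by
  obtain ⟨u, v, huv⟩ := h
  refine ⟨(u : G) * star α, (v : G) * star β, ?_⟩
  have h1 : ((u * α.norm + v * β.norm : ℤ) : G) = 1 := by rw [huv]; simp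
  rw [← h1]
  push_cast
  rw [← self_mul_star, ← self_mul_star]
  ring

/-- a Gaussian integer whose norm is a prime number is prime -/
theorem prime_of_norm {α : G} {p : ℕ} (hp : p.Prime) (h : α.norm = (p : ℤ)) : Prime α := by
  rw [← irreducible_iff_prime]
  refine ⟨fun hu => ?_, fun a b hab => ?_⟩
  · rw [← Zsqrtd.norm_eq_one_iff, h] at hu
    simp at hu
    exact hp.one_lt.ne' hu
  · have h1 : (a.norm.natAbs * b.norm.natAbs) = p := by
      rw [← Int.natAbs_mul, ← Zsqrtd.norm_mul, ← hab, h]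
      simp
    rcases (Nat.prime_mul_iff.1 (h1 ▸ hp)) with ⟨-, h2⟩ | ⟨-, h2⟩
    · exact Or.inr (Zsqrtd.norm_eq_one_iff.1 h2)
    · exact Or.inl (Zsqrtd.norm_eq_one_iff.1 h2)

theorem gp_prime {p : ℕ} (hp : P1 p) : Prime (gp p) := prime_of_norm hp.1 (gp_norm p hp)

/-- `gp p` and its conjugate are coprime -/
theorem gp_coprime {p : ℕ} (hp : P1 p) : IsCoprime (gp p) (star (gp p)) := by
  have hN := gp_norm p hp
  have h2 : Prime (star (gp p)) := prime_of_norm hp.1 (by rw [norm_star, hN])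
  rw [(gp_prime hp).irreducible.coprime_iff_not_dvd]
  intro h
  -- `gp p` divides `2 re`
  have h3 : gp p ∣ gp p + star (gp p) := dvd_add dvd_rfl h
  have h4 : gp p + star (gp p) = ((2 * (gp p).re : ℤ) : G) := by
    apply Zsqrtd.ext
    · simp
      ring
    · simp
  rw [h4] at h3
  obtain ⟨η, hη⟩ := h3
  have h5 : (((2 * (gp p).re : ℤ) : G)).norm = (p : ℤ) * η.norm := by
    rw [hη, Zsqrtd.norm_mul, hN]
  rw [Zsqrtd.norm_intCast] at h5
  have h6 : (p : ℤ) ∣ (2 * (gp p).re) * (2 * (gp p).re) := ⟨_, h5⟩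
  have hpp : Prime (p : ℤ) := Nat.prime_iff_prime_int.1 hp.1
  have h7 : (p : ℤ) ∣ 2 * (gp p).re := by
    rcases hpp.dvd_or_dvd h6 with h | h <;> exact h
  have h8 : (p : ℤ) ∣ (gp p).re := by
    rcases hpp.dvd_or_dvd h7 with h | h
    · have h9 : p ∣ 2 := by exact_mod_cast h
      have h10 := (Nat.prime_dvd_prime_iff_eq hp.1 Nat.prime_two).1 h9
      have := hp.2
      omega
    · exact h
  rw [norm_eq] at hN
  obtain ⟨c, hc⟩ := h8
  have hp0 : (0 : ℤ) < p := by exact_mod_cast hp.1.pos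
  -- then `re = 0` since `re ^ 2 ≤ p`
  have h11 : (p : ℤ) * (c * c * p) ≤ p * 1 := by
    have := mul_self_nonneg (gp p).im
    rw [hc] at hN
    nlinarith
  have h12 : c * c * p ≤ 1 := le_of_mul_le_mul_left h11 hp0
  have hp1 : (1 : ℤ) < p := by exact_mod_cast hp.1.one_lt
  have h13 : c = 0 := by
    by_contra hc0
    have := mul_self_pos.2 hc0
    nlinarith
  rw [hc, h13, mul_zero, mul_zero, zero_add] at hN
  have h14 : (gp p).im.natAbs * (gp p).im.natAbs = p := by
    have := congrArg Int.natAbs hN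
    rw [Int.natAbs_mul] at this
    simpa using this
  have h15 := h14 ▸ hp.1
  rcases Nat.prime_mul_iff.1 h15 with ⟨h16, h17⟩ | ⟨h16, h17⟩
  · rw [h17] at h16
    exact Nat.not_prime_one h16
  · rw [h17] at h16
    exact Nat.not_prime_one h16

/-- invariance of the indicators -/
theorem ind_mul {q : ℕ} (hq : P1 q) {α : G} (hα : IsCoprime (q : ℤ) α.norm) (η : G) :
    ind q (α * η) = ind q η := by
  have hN := gp_norm q hq
  have h1 : IsCoprime (gp q) α := coprime_of_norm (by rw [hN]; exact hα)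
  have h2 : IsCoprime (star (gp q)) α := coprime_of_norm (by rw [norm_star, hN]; exact hα)
  have h3 : IsCoprime (gp q ^ 2) α := h1.pow_left
  have key : ∀ β : G, IsCoprime β α → (β ∣ α * η ↔ β ∣ η) := fun β h =>
    ⟨h.dvd_of_dvd_mul_left, fun h' => h'.mul_left α⟩
  unfold ind
  rw [key _ h1, key _ h2, key _ h3]

open Classical in
/-- the indicator of divisibility -/
noncomputable def dv (α ξ : G) : ℝ := if α ∣ ξ then 1 else 0

theorem ind_eq {p : ℕ} (hp : P1 p) (ξ : G) : ind p ξ =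
    dv (gp p) ξ - dv (gp p ^ 2) ξ - dv (gp p * star (gp p)) ξ + dv (gp p ^ 2 * star (gp p)) ξ := by
  classical
  have hc := gp_coprime hp
  have hc2 : IsCoprime (gp p ^ 2) (star (gp p)) := hc.pow_left
  have h1 : gp p * star (gp p) ∣ ξ ↔ gp p ∣ ξ ∧ star (gp p) ∣ ξ :=
    ⟨fun h => ⟨(dvd_mul_right _ _).trans h, (dvd_mul_left _ _).trans h⟩,
      fun h => hc.mul_dvd h.1 h.2⟩
  have h2 : gp p ^ 2 * star (gp p) ∣ ξ ↔ gp p ^ 2 ∣ ξ ∧ star (gp p) ∣ ξ :=
    ⟨fun h => ⟨(dvd_mul_right _ _).trans h, (dvd_mul_left _ _).trans h⟩,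
      fun h => hc2.mul_dvd h.1 h.2⟩
  have h3 : gp p ^ 2 ∣ ξ → gp p ∣ ξ := fun h => (dvd_pow_self _ two_ne_zero).trans h
  unfold ind dv
  by_cases ha : gp p ∣ ξ
  · by_cases hb : gp p ^ 2 ∣ ξ
    · by_cases hd : star (gp p) ∣ ξ
      · simp [ha, hb, hd, h1, h2]
      · simp [ha, hb, hd, h1, h2]
    · by_cases hd : star (gp p) ∣ ξ
      · simp [ha, hb, hd, h1, h2]
      · simp [ha, hb, hd, h1, h2]
  · have hb : ¬ gp p ^ 2 ∣ ξ := fun h => ha (h3 h)
    by_cases hd : star (gp p) ∣ ξ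
    · simp [ha, hb, hd, h1, h2]
    · simp [ha, hb, hd, h1, h2]

/-- the sum over the multiples of `α` -/
theorem sum_dv {α : G} {N : ℕ} (hN : 0 < N) (hα : α.norm = (N : ℤ)) (F : G → ℝ) (X : ℕ) :
    ∑ ξ ∈ disc X, dv α ξ * F ξ = ∑ η ∈ disc (X / N), F (α * η) := by
  classical
  have hα0 : α ≠ 0 := by
    rintro rfl
    rw [Zsqrtd.norm_zero] at hα
    have : N = 0 := by exact_mod_cast hα.symm
    omega
  have h1 : ∑ ξ ∈ disc X, dv α ξ * F ξ = ∑ ξ ∈ (disc X).filter (fun ξ => α ∣ ξ), F ξ := by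
    rw [Finset.sum_filter]
    refine Finset.sum_congr rfl fun ξ _ => ?_
    unfold dv
    split_ifs <;> simp
  have h2 : (disc X).filter (fun ξ => α ∣ ξ) = (disc (X / N)).image (fun η => α * η) := by
    ext ξ
    rw [Finset.mem_filter, Finset.mem_image, mem_disc]
    have key : ∀ η : G, (α * η).norm ≤ (X : ℤ) ↔ η.norm ≤ ((X / N : ℕ) : ℤ) := by
      intro η
      rw [Zsqrtd.norm_mul, hα]
      push_cast
      rw [Int.le_ediv_iff_mul_le (by exact_mod_cast hN), mul_comm]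
    constructor
    · rintro ⟨⟨h0, hle⟩, η, rfl⟩
      refine ⟨η, ?_, rfl⟩
      rw [mem_disc]
      exact ⟨fun h => h0 (by rw [h, mul_zero]), (key η).1 hle⟩
    · rintro ⟨η, hη, rfl⟩
      rw [mem_disc] at hη
      exact ⟨⟨mul_ne_zero hα0 hη.1, (key η).2 hη.2⟩, dvd_mul_right _ _⟩
  rw [h1, h2, Finset.sum_image]
  intro a _ b _ hab
  exact mul_left_cancel₀ hα0 hab

/-- the density of the multiples -/
theorem dens_dv {α : G} {N : ℕ} (hN : 0 < N) (hα : α.norm = (N : ℤ)) {F : G → ℝ}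
    (hF : ∀ η, F (α * η) = F η) {c : ℝ}
    (h : Tendsto (fun X : ℕ => (1 / (X : ℝ)) * ∑ ξ ∈ disc X, F ξ) atTop (𝓝 c)) :
    Tendsto (fun X : ℕ => (1 / (X : ℝ)) * ∑ ξ ∈ disc X, dv α ξ * F ξ) atTop
      (𝓝 ((1 / (N : ℝ)) * c)) := by
  have h1 : Tendsto (fun X : ℕ => X / N) atTop atTop := Nat.tendsto_div_const_atTop hN.ne'
  have h2 := h.comp h1
  have h3 : Tendsto (fun X : ℕ => (((X / N : ℕ) : ℝ)) / (X : ℝ)) atTop (𝓝 (1 / (N : ℝ))) := by
    have hN' : (0 : ℝ) < N := by exact_mod_cast hN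
    have h4 : Tendsto (fun X : ℕ => 1 / (N : ℝ) - 1 / (X : ℝ)) atTop (𝓝 (1 / (N : ℝ))) := by
      have := (tendsto_const_nhds (x := 1 / (N : ℝ)) (f := (atTop : Filter ℕ))).sub
        (tendsto_one_div_atTop_nhds_zero_nat (𝕜 := ℝ))
      simpa using this
    refine tendsto_of_tendsto_of_tendsto_of_le_of_le' h4 tendsto_const_nhds ?_ ?_
    · filter_upwards [eventually_gt_atTop 0] with X hX
      have hX' : (0 : ℝ) < X := by exact_mod_cast hX
      have h5 : X < (X / N + 1) * N := by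
        have := Nat.div_add_mod X N
        have h6 := Nat.mod_lt X hN
        nlinarith
      have h6 : (X : ℝ) < (((X / N : ℕ) : ℝ) + 1) * N := by exact_mod_cast h5
      rw [le_div_iff₀ hX', sub_mul, one_div_mul_cancel hX'.ne', one_div, inv_mul_eq_div]
      rw [sub_le_iff_le_add, div_le_iff₀ hN']
      exact h6.le
    · filter_upwards [eventually_gt_atTop 0] with X hX
      have hX' : (0 : ℝ) < X := by exact_mod_cast hX
      rw [div_le_div_iff₀ hX' hN', one_mul]
      exact_mod_cast Nat.div_mul_le_self X N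
  refine (h3.mul h2).congr' ?_
  filter_upwards [eventually_ge_atTop N] with X hX
  have hX' : (0 : ℝ) < X := by exact_mod_cast (hN.trans_le hX)
  have h7 : 0 < X / N := Nat.div_pos hX hN
  have h8 : (0 : ℝ) < ((X / N : ℕ) : ℝ) := by exact_mod_cast h7
  rw [Function.comp_apply, sum_dv hN hα]
  simp only [hF]
  field_simp

/-- M3 -/
theorem m3 : S_M3 := by
  intro P
  induction P using Finset.induction_on with
  | empty =>
    intro _ a _
    simpa using card_tendsto
  | insert p P hp ih =>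
    intro hP a ha
    have hPP : ∀ q ∈ P, P1 q := fun q hq => hP q (Finset.mem_insert_of_mem hq)
    have hpp : P1 p := hP p (Finset.mem_insert_self p P)
    have h0 := ih hPP a ha
    obtain ⟨F, hF⟩ : ∃ F : G → ℝ, F = fun ξ => ∏ q ∈ P, (1 - a q * ind q ξ) := ⟨_, rfl⟩
    obtain ⟨c, hc⟩ : ∃ c : ℝ, c = Real.pi * ∏ q ∈ P,
      (1 - a q * ((1 / (q : ℝ)) * (1 - 1 / (q : ℝ)) ^ 2)) := ⟨_, rfl⟩
    have h1 : Tendsto (fun X : ℕ => (1 / (X : ℝ)) * ∑ ξ ∈ disc X, F ξ) atTop (𝓝 c) := by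
      rw [hF, hc]
      exact h0
    have hN := gp_norm p hpp
    have hN' : (star (gp p)).norm = (p : ℤ) := by rw [norm_star, hN]
    have hpos : 0 < p := hpp.1.pos
    have hcop : ∀ q ∈ P, ∀ k : ℕ, IsCoprime (q : ℤ) ((p : ℤ) ^ k) := by
      intro q hq k
      refine IsCoprime.pow_right ?_
      rw [Nat.isCoprime_iff_coprime]
      exact (Nat.coprime_primes (hPP q hq).1 hpp.1).2 fun h => hp (h ▸ hq)
    have hFinv : ∀ (α : G) (k : ℕ), α.norm = (p : ℤ) ^ k → ∀ η, F (α * η) = F η := by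
      intro α k hα η
      rw [hF]
      refine Finset.prod_congr rfl fun q hq => ?_
      rw [ind_mul (hPP q hq) (by rw [hα]; exact hcop q hq k)]
    have key : ∀ (α : G) (k : ℕ), α.norm = (p : ℤ) ^ k →
        Tendsto (fun X : ℕ => (1 / (X : ℝ)) * ∑ ξ ∈ disc X, dv α ξ * F ξ) atTop
          (𝓝 ((1 / (p : ℝ) ^ k) * c)) := by
      intro α k hα
      have h2 := dens_dv (α := α) (N := p ^ k) (pow_pos hpos k) (by rw [hα]; push_cast; rfl)
        (hFinv α k hα) h1
      push_cast at h2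
      exact h2
    have k1 := key (gp p) 1 (by rw [hN, pow_one])
    have k2 := key (gp p ^ 2) 2 (by rw [pow_two, Zsqrtd.norm_mul, hN, pow_two])
    have k3 := key (gp p * star (gp p)) 2 (by rw [Zsqrtd.norm_mul, hN, hN', pow_two])
    have k4 := key (gp p ^ 2 * star (gp p)) 3
      (by rw [Zsqrtd.norm_mul, pow_two, Zsqrtd.norm_mul, hN, hN']; ring)
    have h5 := h1.sub ((((k1.sub k2).sub k3).add k4).const_mul (a p))
    have hlim : c - a p * (1 / (p : ℝ) ^ 1 * c - 1 / (p : ℝ) ^ 2 * c - 1 / (p : ℝ) ^ 2 * c +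
        1 / (p : ℝ) ^ 3 * c) = Real.pi * ∏ q ∈ insert p P,
          (1 - a q * ((1 / (q : ℝ)) * (1 - 1 / (q : ℝ)) ^ 2)) := by
      rw [Finset.prod_insert hp, hc]
      ring
    rw [hlim] at h5
    refine h5.congr fun X => ?_
    have h6 : ∀ ξ : G, ∏ q ∈ insert p P, (1 - a q * ind q ξ) = F ξ - a p *
        (dv (gp p) ξ * F ξ - dv (gp p ^ 2) ξ * F ξ - dv (gp p * star (gp p)) ξ * F ξ +
          dv (gp p ^ 2 * star (gp p)) ξ * F ξ) := by
      intro ξ
      rw [Finset.prod_insert hp, ind_eq hpp, hF]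
      ring
    simp only [h6]
    rw [Finset.sum_sub_distrib, ← Finset.mul_sum, Finset.sum_add_distrib,
      Finset.sum_sub_distrib, Finset.sum_sub_distrib]
    ring

end Pool.Agent.Zk50.SQ
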