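import Mathlib
import Pool.Agent.Zk91.SQ.Defs6

/-!
# W5: asymptotic tightness and convergence of the finite dimensional distributions imply weak
convergence in `C(ℂ, ℝ)`
-/

set_option autoImplicit false

open MeasureTheory Filter Topology

namespace Pool.Agent.Zk50.SQ

open Pool.Agent.Zk91.SQ

lemma w5_tight (P : ℕ → Measure C(ℂ, ℝ)) (hP : ∀ j, IsProbabilityMeasure (P j))
    (hT : ∀ ε : ℝ, 0 < ε → ∃ K : Set C(ℂ, ℝ), IsCompact K ∧ ∀ᶠ j in atTop, (P j).real Kᶜ ≤ ε) :
    IsTightMeasureSet (Set.range P) := by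
  rw [isTightMeasureSet_iff_exists_isCompact_measure_compl_le]
  intro ε hε
  obtain ⟨e, he0, he⟩ : ∃ e : ℝ, 0 < e ∧ ENNReal.ofReal e ≤ ε := by
    by_cases htop : ε = ⊤
    · exact ⟨1, one_pos, by rw [htop]; exact le_top⟩
    · exact ⟨ε.toReal, ENNReal.toReal_pos hε.ne' htop, (ENNReal.ofReal_toReal htop).le⟩
  obtain ⟨K, hK, hKj⟩ := hT e he0
  obtain ⟨N, hN⟩ := eventually_atTop.mp hKj
  have h1 : ∀ j, ∃ L : Set C(ℂ, ℝ), IsCompact L ∧ P j Lᶜ ≤ ε := by
    intro j
    have := hP j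
    obtain ⟨L, hL, h⟩ := (isTightMeasureSet_iff_exists_isCompact_measure_compl_le
      (S := {P j})).mp isTightMeasureSet_singleton ε hε
    exact ⟨L, hL, h _ rfl⟩
  choose L hL hLj using h1
  refine ⟨K ∪ ⋃ j ∈ Finset.range N, L j,
    hK.union ((Finset.range N).isCompact_biUnion fun j _ => hL j), ?_⟩
  rintro _ ⟨j, rfl⟩
  by_cases hj : j < N
  · refine le_trans (measure_mono ?_) (hLj j)
    apply Set.compl_subset_compl.mpr
    refine Set.Subset.trans ?_ Set.subset_union_right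
    exact Set.subset_biUnion_of_mem (u := L) (Finset.mem_coe.mpr (Finset.mem_range.mpr hj))
  · have h2 := hN j (not_lt.mp hj)
    refine le_trans (measure_mono (Set.compl_subset_compl.mpr Set.subset_union_left)) ?_
    have := hP j
    calc P j Kᶜ = ENNReal.ofReal ((P j).real Kᶜ) := (ofReal_measureReal (by finiteness)).symm
      _ ≤ ENNReal.ofReal e := ENNReal.ofReal_le_ofReal h2
      _ ≤ ε := he

/-- the function integrated in `chf` -/
noncomputable def efun {k : ℕ} (w : Fin k → ℂ) (t : Fin k → ℝ) :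
    BoundedContinuousFunction C(ℂ, ℝ) ℂ :=
  BoundedContinuousFunction.ofNormedAddCommGroup
    (fun f : C(ℂ, ℝ) => Complex.exp (Complex.I * ((∑ j, t j * f (w j) : ℝ) : ℂ)))
    (by
      refine Complex.continuous_exp.comp (continuous_const.mul (Complex.continuous_ofReal.comp ?_))
      exact continuous_finsetSum _ fun j _ => continuous_const.mul
        (continuous_eval_const (w j)))
    1 (fun f => by
      rw [mul_comm, Complex.norm_exp_ofReal_mul_I])

lemma chf_cont {k : ℕ} (w : Fin k → ℂ) (t : Fin k → ℝ) :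
    Continuous fun μ : ProbabilityMeasure C(ℂ, ℝ) => chf (μ : Measure C(ℂ, ℝ)) w t := by
  rw [continuous_iff_continuousAt]
  intro μ
  exact (ProbabilityMeasure.tendsto_iff_forall_integral_rclike_tendsto ℂ).mp
    (tendsto_id (α := ProbabilityMeasure C(ℂ, ℝ)) (x := 𝓝 μ)) (efun w t)

theorem w5 : S_W5 := by
  intro h4 P Φ hP hT hΦ
  let Q : ℕ → ProbabilityMeasure C(ℂ, ℝ) := fun j => ⟨P j, hP j⟩
  have htight : IsTightMeasureSet
      {x | ∃ μ ∈ Set.range Q, ((μ : ProbabilityMeasure C(ℂ, ℝ)) : Measure C(ℂ, ℝ)) = x} := by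
    refine (w5_tight P hP hT).subset ?_
    rintro _ ⟨_, ⟨j, rfl⟩, rfl⟩
    exact ⟨j, rfl⟩
  have hcomp : IsCompact (closure (Set.range Q)) := isCompact_closure_of_isTightMeasureSet htight
  have hmem : ∀ j, Q j ∈ closure (Set.range Q) := fun j => subset_closure ⟨j, rfl⟩
  have hcl : ∀ x : ProbabilityMeasure C(ℂ, ℝ), MapClusterPt x atTop Q →
      ∀ (k : ℕ) (w : Fin k → ℂ) (t : Fin k → ℝ), chf (x : Measure C(ℂ, ℝ)) w t = Φ k w t := by
    intro x hx k w t
    have h1 : MapClusterPt (chf (x : Measure C(ℂ, ℝ)) w t) atTop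
        ((fun μ : ProbabilityMeasure C(ℂ, ℝ) => chf (μ : Measure C(ℂ, ℝ)) w t) ∘ Q) :=
      hx.continuousAt_comp (chf_cont w t).continuousAt
    have h2 : Tendsto ((fun μ : ProbabilityMeasure C(ℂ, ℝ) =>
        chf (μ : Measure C(ℂ, ℝ)) w t) ∘ Q) atTop (𝓝 (Φ k w t)) := hΦ k w t
    have h3 : ClusterPt (chf (x : Measure C(ℂ, ℝ)) w t) (𝓝 (Φ k w t)) := ClusterPt.mono h1 h2
    exact eq_of_nhds_neBot h3
  obtain ⟨μ, -, hμ⟩ := hcomp.exists_mapClusterPt (f := atTop) (u := Q)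
    (by rw [le_principal_iff]; exact Filter.mem_map.mpr (Filter.univ_mem' hmem))
  have hlim : Tendsto Q atTop (𝓝 μ) := by
    refine hcomp.tendsto_nhds_of_unique_mapClusterPt (Filter.Eventually.of_forall hmem) ?_
    intro x _ hx
    apply Subtype.ext
    exact h4 (x : Measure C(ℂ, ℝ)) (μ : Measure C(ℂ, ℝ)) x.2 μ.2
      fun k w t => (hcl x hx k w t).trans (hcl μ hμ k w t).symm
  refine ⟨(μ : Measure C(ℂ, ℝ)), μ.2, hcl μ hμ, ?_⟩
  rintro F hF ⟨B, hB⟩
  exact ProbabilityMeasure.tendsto_iff_forall_integral_tendsto.mp hlim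
    (BoundedContinuousFunction.ofNormedAddCommGroup F hF B
      (fun f => by rw [Real.norm_eq_abs]; exact hB f))

end Pool.Agent.Zk50.SQ
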